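import Pool.Agent.H37.QT.Fin

/-!
MP_e38f6a_co, orders of planar cyclic difference sets: a necessary condition from the biquadratic character, and two infinite
families of numbers which are no orders.
-/

set_option autoImplicit false

namespace Pool.Agent.Results.MP_e38f6a_co.BiquadraticTest

/-- Some `(n+1)`-element subset of the integers mod `n^2+n+1` has every nonzero residue exactly
once as a difference of two of its elements. -/
def IsPlanarOrder (n : ℕ) : Prop :=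
  ∃ D : Finset (ZMod (n ^ 2 + n + 1)), D.card = n + 1 ∧
    ∀ r : ZMod (n ^ 2 + n + 1), r ≠ 0 →
      ((D ×ˢ D).filter (fun p => p.1 - p.2 = r)).card = 1

/-- Let `m` be no square, let some power `m ^ k`, `3 ∤ k`, be the order of a planar cyclic difference set, and
`m² + m + 1 = a² + b²` with `b` even.  Then `(-1)^((m²+m)/4) 2 (a+1)` is a square modulo every odd prime `p ∣ m`, and `8 ∣ b` if `m`
is even.  Consequently no `(s² - 1) ^ k` with `s ≡ 4, 6 mod 8` and no `(3 t²) ^ k` with `t ≡ 4, 5, 7 mod 8`, `3 ∤ k`, is an order. -/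
theorem result :
    (∀ m : ℕ, ¬ IsSquare m → (∃ k : ℕ, ¬ 3 ∣ k ∧ IsPlanarOrder (m ^ k)) →
      ∀ a b : ℤ, (2 : ℤ) ∣ b → a ^ 2 + b ^ 2 = (m : ℤ) ^ 2 + m + 1 →
        (∀ p : ℕ, p.Prime → p ≠ 2 → p ∣ m →
          IsSquare ((-1 : ZMod p) ^ ((m ^ 2 + m) / 4) * (2 * ((a : ZMod p) + 1)))) ∧
        (2 ∣ m → (8 : ℤ) ∣ b)) ∧
    (∀ s k : ℕ, s % 8 = 4 ∨ s % 8 = 6 → ¬ 3 ∣ k → ¬ IsPlanarOrder ((s ^ 2 - 1) ^ k)) ∧
    (∀ t k : ℕ, t % 8 = 4 ∨ t % 8 = 5 ∨ t % 8 = 7 → ¬ 3 ∣ k → ¬ IsPlanarOrder ((3 * t ^ 2) ^ k)) :=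
  Pool.Agent.H37.QT.qt_main

end Pool.Agent.Results.MP_e38f6a_co.BiquadraticTest
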