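import Pool.Agent.H37.PW.Fin2

/-!
MP_e38f6a_co, orders of planar cyclic difference sets: for all but `O (x / (log x)^(5/4))` of the non-prime `m ≤ x` no power `m ^ k`,
`3 ∤ k`, is an order.
-/

set_option autoImplicit false

namespace Pool.Agent.Results.MP_e38f6a_co.PerfectPowers

/-- Some `(n+1)`-element subset of the integers mod `n^2+n+1` has every nonzero residue exactly
once as a difference of two of its elements. -/
def IsPlanarOrder (n : ℕ) : Prop :=
  ∃ D : Finset (ZMod (n ^ 2 + n + 1)), D.card = n + 1 ∧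
    ∀ r : ZMod (n ^ 2 + n + 1), r ≠ 0 →
      ((D ×ˢ D).filter (fun p => p.1 - p.2 = r)).card = 1

open Classical in
/-- For all `x ≥ 2`, at most `C x / (log x)^(5/4)` integers `2 ≤ m ≤ x` are not prime and have a power `m ^ k`, `k` not divisible
by 3, which is the order of a planar cyclic difference set. -/
theorem result : ∃ C : ℝ, 0 < C ∧ ∀ x : ℕ, 2 ≤ x →
    (((Finset.Icc 2 x).filter (fun m => (∃ k : ℕ, ¬ 3 ∣ k ∧ IsPlanarOrder (m ^ k)) ∧ ¬ m.Prime)).card : ℝ)
      ≤ C * x / Real.log x ^ (5 / 4 : ℝ) :=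
  Pool.Agent.H37.PW.perfect_powers

end Pool.Agent.Results.MP_e38f6a_co.PerfectPowers
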