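import Pool.Agent.H37.PS.FinB

/-!
MP_e38f6a_co, orders of planar cyclic difference sets: for every rational polynomial `f` which is not of the form `c X^e`
at most `C Y / (log Y)^2` primes `l` in an interval of length `Y` have a power `f(l)^k`, `3^A ∤ k`, which is an order.
-/

set_option autoImplicit false

namespace Pool.Agent.Results.MP_e38f6a_co.PolynomialPrimes

/-- Some `(n+1)`-element subset of the integers mod `n^2+n+1` has every nonzero residue exactly
once as a difference of two of its elements. -/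
def IsPlanarOrder (n : ℕ) : Prop :=
  ∃ D : Finset (ZMod (n ^ 2 + n + 1)), D.card = n + 1 ∧
    ∀ r : ZMod (n ^ 2 + n + 1), r ≠ 0 →
      ((D ×ˢ D).filter (fun p => p.1 - p.2 = r)).card = 1

open Classical in
/-- For every `f ∈ ℚ[X]` which is not of the form `c X^e` and every `A` there is `C > 0` such that for all `M ≥ 0` and
`Y ≥ 2` at most `C Y / (log Y)^2` primes `l` in `(M, M + Y]` have a power `f(l)^k`, `k` not divisible by `3 ^ A`, which is
the order of a planar cyclic difference set. -/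
theorem result (f : Polynomial ℚ) (hf : ¬ ∃ (c : ℚ) (e : ℕ), f = Polynomial.C c * Polynomial.X ^ e) (A : ℕ) :
    ∃ C : ℝ, 0 < C ∧ ∀ Y M : ℕ, 2 ≤ Y → (((Finset.Ioc M (M + Y)).filter fun l : ℕ => l.Prime ∧
      ∃ k n : ℕ, ¬ 3 ^ A ∣ k ∧ (n : ℚ) = f.eval (l : ℚ) ^ k ∧ IsPlanarOrder n).card : ℝ) ≤
        C * Y / Real.log Y ^ 2 := by
  obtain ⟨C, hC, H⟩ := Pool.Agent.H37.PS.main_primes f hf A
  refine ⟨C, hC, fun Y M hY => ?_⟩
  rw [mul_div_assoc]
  exact H Y M hY

end Pool.Agent.Results.MP_e38f6a_co.PolynomialPrimes
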