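import Pool.Agent.H37.PS.FinA

/-!
MP_e38f6a_co, orders of planar cyclic difference sets: for every non-constant rational polynomial `f` at most
`C Y / log Y` integers `m` in an interval of length `Y` have a power `f(m)^k`, `3^A ∤ k`, which is an order.
-/

set_option autoImplicit false

namespace Pool.Agent.Results.MP_e38f6a_co.PolynomialRate

/-- Some `(n+1)`-element subset of the integers mod `n^2+n+1` has every nonzero residue exactly
once as a difference of two of its elements. -/
def IsPlanarOrder (n : ℕ) : Prop :=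
  ∃ D : Finset (ZMod (n ^ 2 + n + 1)), D.card = n + 1 ∧
    ∀ r : ZMod (n ^ 2 + n + 1), r ≠ 0 →
      ((D ×ˢ D).filter (fun p => p.1 - p.2 = r)).card = 1

open Classical in
/-- For every non-constant `f ∈ ℚ[X]` and every `A` there is `C > 0` such that for all integers `M` and `Y ≥ 2` at most
`C Y / log Y` integers `m` in `(M, M + Y]` have a power `f(m)^k`, `k` not divisible by `3 ^ A`, which is the order of a
planar cyclic difference set. -/
theorem result (f : Polynomial ℚ) (hf : 1 ≤ f.natDegree) (A : ℕ) :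
    ∃ C : ℝ, 0 < C ∧ ∀ (Y : ℕ) (M : ℤ), 2 ≤ Y → (((Finset.Ioc M (M + Y)).filter fun m : ℤ =>
      ∃ k n : ℕ, ¬ 3 ^ A ∣ k ∧ (n : ℚ) = f.eval (m : ℚ) ^ k ∧ IsPlanarOrder n).card : ℝ) ≤
        C * Y / Real.log Y := by
  obtain ⟨C, hC, H⟩ := Pool.Agent.H37.PS.main_rate f hf A
  refine ⟨C, hC, fun Y M hY => ?_⟩
  rw [mul_div_assoc]
  exact H Y M hY

end Pool.Agent.Results.MP_e38f6a_co.PolynomialRate
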